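import Pool.Agent.Helper74.NM.St

/-!
# Project NM (MP_26f0da_lc): module DEC (pairs in the wrong order)
-/

set_option autoImplicit false

namespace Pool.Agent.Helper10.NM

open Pool.Agent.Helper74 Pool.Agent.Helper74.NM

private theorem key {G : Type} (P : G → G → Prop) (w : List G)
    (h : NC (fun a b => P a b ∨ P b a) w) :
    NC P w ∨ ∃ (p : List G) (y : G) (s : List G) (x : G) (q : List G),
      w = p ++ y :: (s ++ x :: q) ∧ NC P s ∧ P x y := by
  induction h with
  | nil => exact Or.inl NC.nil
  | wrap a b u v hab hu hv ihu ihv =>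
    rcases ihu with hu' | ⟨p, y, s, x, q, e, hs, hxy⟩
    · rcases ihv with hv' | ⟨p, y, s, x, q, e, hs, hxy⟩
      · rcases hab with hab | hba
        · exact Or.inl (NC.wrap a b u v hab hu' hv')
        · exact Or.inr ⟨[], a, u, b, v, rfl, hu', hba⟩
      · exact Or.inr ⟨a :: (u ++ b :: p), y, s, x, q, by rw [e]; simp, hs, hxy⟩
    · exact Or.inr ⟨a :: p, y, s, x, q ++ b :: v, by rw [e]; simp, hs, hxy⟩

/-- Pairs in the wrong order. -/
theorem hDEC (hTRN : StTRN) : StDEC := by
  intro G P op hop w hdead hnc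
  rcases key P w hnc with h | ⟨p, y, s, x, q, e, hs, hxy⟩
  · exact (hTRN G P op hop w).1 h
  · exfalso
    have hd := hdead p y (s ++ x :: q) e
    rw [dead_append] at hd
    have h1 := hd.2 [] ((hTRN G P op hop s).1 hs)
    rw [dead_cons] at h1
    exact h1.1 rfl hxy

end Pool.Agent.Helper10.NM
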